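import Pool.Agent.Helper53.RC.Lev

/-!
# Module D: the circle
-/

namespace Pool.Agent.Helper53.RCD

open Pool.Agent.Helper93.RC Filter Topology

variable {m : ℕ}

/-! ### topology of `Sq m` -/

theorem lv_finite (hm : 5 ≤ m) : Finite (Lv m) := by
  have : NeZero m := ⟨by omega⟩
  have : Function.Injective (fun a : Lv m => (a.z, a.δ)) := by
    rintro ⟨z, d⟩ ⟨z', d'⟩ h
    simp only [Prod.mk.injEq] at h
    rw [h.1, h.2]
  exact Finite.of_injective _ this

theorem sq_compact (hm : 5 ≤ m) : CompactSpace (Sq m) := by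
  have := lv_finite hm
  have h1 : IsClosed {σ : ℕ → Lv m | ∀ k, Ok (σ k) (σ (k + 1))} := by
    rw [Set.ofPred_forall]
    refine isClosed_iInter fun k => ?_
    have h2 : IsClosed {p : Lv m × Lv m | Ok p.1 p.2} := isClosed_discrete _
    have h3 : {σ : ℕ → Lv m | Ok (σ k) (σ (k + 1))} =
        (fun σ : ℕ → Lv m => (σ k, σ (k + 1))) ⁻¹' {p : Lv m × Lv m | Ok p.1 p.2} := rfl
    rw [h3]
    exact h2.preimage ((continuous_apply k).prodMk (continuous_apply (k + 1)))
  exact isCompact_iff_compactSpace.1 h1.isCompact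

theorem agree_nhds (σ : Sq m) (k : ℕ) : ∀ᶠ τ : Sq m in 𝓝 σ, ∀ j < k, τ.1 j = σ.1 j := by
  have h1 : ∀ j, ∀ᶠ τ : Sq m in 𝓝 σ, τ.1 j = σ.1 j := by
    intro j
    have hc : Continuous fun τ : Sq m => τ.1 j := (continuous_apply j).comp continuous_subtype_val
    exact (hc.continuousAt (x := σ)).eventually
      ((isOpen_discrete {σ.1 j}).mem_nhds rfl)
  have h2 : ∀ᶠ τ : Sq m in 𝓝 σ, ∀ j ∈ Finset.range k, τ.1 j = σ.1 j := by
    rw [Filter.eventually_all_finset]
    exact fun j _ => h1 j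
  filter_upwards [h2] with τ hτ j hj
  exact hτ j (Finset.mem_range.2 hj)

theorem pp_congr {H : Type*} [Monoid H] (b : ZMod m → H) (σ τ : ℕ → Lv m) (k : ℕ)
    (h : ∀ j < k, τ j = σ j) : pp b τ k = pp b σ k := by
  induction k with
  | zero => rfl
  | succ k ih =>
    show pp b τ k * lvp b (τ k) = pp b σ k * lvp b (σ k)
    rw [ih (fun j hj => h j (by omega)), h k (by omega)]

theorem R_congr (P : Geo m) (σ τ : Sq m) (k : ℕ) (h : ∀ j < k + 1, τ.1 j = σ.1 j) :
    P.R τ k = P.R σ k := by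
  unfold Geo.R pc
  rw [pp_congr (gen (cyc m)) σ.1 τ.1 k (fun j hj => h j (by omega)), h k (by omega)]

theorem R_locConst (P : Geo m) (k : ℕ) : IsLocallyConstant fun σ : Sq m => P.R σ k := by
  rw [IsLocallyConstant.iff_eventually_eq]
  intro σ
  filter_upwards [agree_nhds σ (k + 1)] with τ hτ
  exact R_congr P σ τ k hτ

/-! ### the point at infinity -/

/-- the null vector of a point of the circle -/
noncomputable def nv (ξ : Circle) : E := ((ξ : ℂ).re, (ξ : ℂ).im, 1)

theorem nv_null (ξ : Circle) : B (nv ξ) (nv ξ) = 0 := by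
  have h : (ξ : ℂ).re * (ξ : ℂ).re + (ξ : ℂ).im * (ξ : ℂ).im = 1 := by
    have := Circle.normSq_coe ξ
    rwa [Complex.normSq_apply] at this
  unfold B nv
  simp only
  linarith

theorem nv_FC (ξ : Circle) : FC (nv ξ) := ⟨(nv_null ξ).le, by simp [nv]⟩

theorem nv_cont (r : E) : Continuous fun ξ : Circle => B (nv ξ) r := by
  unfold B nv
  fun_prop

theorem exists_pt (hm : 5 ≤ m) (P : Geo m) (σ : Sq m) :
    ∃ ξ : Circle, ∀ k, 0 ≤ B (nv ξ) (P.R σ k) := by
  have h1 := IsCompact.nonempty_iInter_of_sequence_nonempty_isCompact_isClosed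
    (fun k => {ξ : Circle | 0 ≤ B (nv ξ) (P.R σ k)}) ?_ ?_ ?_ ?_
  · obtain ⟨ξ, hξ⟩ := h1
    rw [Set.mem_iInter] at hξ
    exact ⟨ξ, hξ⟩
  · intro k ξ hξ
    have h2 := nest hm P σ k (nv_FC ξ)
    have h3 : 0 ≤ B (nv ξ) (P.R σ (k + 1)) := hξ
    show 0 ≤ B (nv ξ) (P.R σ k)
    by_contra hc
    push Not at hc
    have := P.hκ
    nlinarith
  · intro k
    set r := P.R σ k with hr
    have hB := R_self P σ k
    have hh := R_height hm P σ k
    have hp := hpos P k
    rw [← hr] at hB hh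
    have e1 : r.1 ^ 2 + r.2.1 ^ 2 = 1 + r.2.2 ^ 2 := by unfold B at hB; nlinarith
    have hs : 0 < √(1 + r.2.2 ^ 2) := by positivity
    have hs2 : √(1 + r.2.2 ^ 2) ^ 2 = 1 + r.2.2 ^ 2 := Real.sq_sqrt (by positivity)
    have hz : ‖(⟨r.1 / √(1 + r.2.2 ^ 2), r.2.1 / √(1 + r.2.2 ^ 2)⟩ : ℂ)‖ = 1 := by
      rw [Complex.norm_def, Complex.normSq_mk, Real.sqrt_eq_one]
      field_simp
      rw [hs2]
      linarith
    refine ⟨⟨⟨r.1 / √(1 + r.2.2 ^ 2), r.2.1 / √(1 + r.2.2 ^ 2)⟩, ?_⟩, ?_⟩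
    · rw [Submonoid.unitSphere, ]
      simpa using hz
    · show 0 ≤ r.1 / √(1 + r.2.2 ^ 2) * r.1 + r.2.1 / √(1 + r.2.2 ^ 2) * r.2.1 - 1 * r.2.2
      have h4 : r.1 / √(1 + r.2.2 ^ 2) * r.1 + r.2.1 / √(1 + r.2.2 ^ 2) * r.2.1 =
          √(1 + r.2.2 ^ 2) := by
        field_simp
        rw [hs2]
        linarith
      rw [h4]
      have : r.2.2 ≤ √(1 + r.2.2 ^ 2) := by
        apply Real.le_sqrt_of_sq_le
        linarith
      linarith
  · exact (isClosed_le continuous_const (nv_cont _)).isCompact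
  · intro k
    exact isClosed_le continuous_const (nv_cont _)

/-- the point at infinity of a sequence of levels -/
noncomputable def q (hm : 5 ≤ m) (P : Geo m) (σ : Sq m) : Circle := (exists_pt hm P σ).choose

theorem q_spec (hm : 5 ≤ m) (P : Geo m) (σ : Sq m) (k : ℕ) : 0 ≤ B (nv (q hm P σ)) (P.R σ k) :=
  (exists_pt hm P σ).choose_spec k

theorem h_tendsto (P : Geo m) : Tendsto (fun k => 5 / (P.κ ^ k * P.b) ^ 2) atTop (𝓝 0) := by
  have h1 : Tendsto (fun k : ℕ => P.κ ^ k * P.b) atTop atTop :=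
    (tendsto_pow_atTop_atTop_of_one_lt P.hκ).atTop_mul_const P.hb
  have h2 : Tendsto (fun k : ℕ => (P.κ ^ k * P.b) ^ 2) atTop atTop :=
    (tendsto_pow_atTop (by norm_num)).comp h1
  exact h2.const_div_atTop 5

theorem cap_nv (hm : 5 ≤ m) (P : Geo m) (σ : Sq m) (k : ℕ) {y : E} (h3 : y.2.2 = 1)
    (hB : B y y ≤ 0) (hy : 0 ≤ B y (P.R σ k)) :
    (y.1 - ((q hm P σ : Circle) : ℂ).re) ^ 2 + (y.2.1 - ((q hm P σ : Circle) : ℂ).im) ^ 2 ≤
      5 / (P.κ ^ k * P.b) ^ 2 :=
  cap (y' := nv (q hm P σ)) (hpos P k) h3 rfl hB (nv_null _).le (R_self P σ k)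
    (R_height hm P σ k) hy (q_spec hm P σ k)

theorem circle_ext {ξ η : Circle} (h : ((ξ : ℂ).re - (η : ℂ).re) ^ 2 +
    ((ξ : ℂ).im - (η : ℂ).im) ^ 2 ≤ 0) : ξ = η := by
  apply Circle.ext
  apply Complex.ext
  · nlinarith [sq_nonneg ((ξ : ℂ).re - (η : ℂ).re), sq_nonneg ((ξ : ℂ).im - (η : ℂ).im)]
  · nlinarith [sq_nonneg ((ξ : ℂ).re - (η : ℂ).re), sq_nonneg ((ξ : ℂ).im - (η : ℂ).im)]

theorem q_unique (hm : 5 ≤ m) (P : Geo m) (σ : Sq m) (ξ : Circle)
    (h : ∀ k, 0 ≤ B (nv ξ) (P.R σ k)) : ξ = q hm P σ := by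
  apply circle_ext
  apply ge_of_tendsto' (h_tendsto P)
  intro k
  exact cap_nv hm P σ k (y := nv ξ) rfl (nv_null ξ).le (h k)

theorem nest_le (hm : 5 ≤ m) (P : Geo m) (σ : Sq m) (k d : ℕ) {x : E} (hx : FC x)
    (h : 0 ≤ B x (P.R σ (k + d))) : 0 ≤ B x (P.R σ k) := by
  induction d with
  | zero => exact h
  | succ d ih =>
    apply ih
    have h2 := nest hm P σ (k + d) hx
    rw [← add_assoc] at h
    by_contra hc
    push Not at hc
    have := P.hκ
    nlinarith

theorem q_cont (hm : 5 ≤ m) (P : Geo m) : Continuous (q hm P) := by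
  rw [continuous_iff_continuousAt]
  intro σ
  rw [ContinuousAt, Metric.tendsto_nhds]
  intro ε hε
  obtain ⟨k, hk⟩ := ((h_tendsto P).eventually (gt_mem_nhds (show (0 : ℝ) < ε ^ 2 by positivity))).exists
  filter_upwards [agree_nhds σ (k + 1)] with τ hτ
  have h1 := q_spec hm P τ k
  rw [R_congr P σ τ k hτ] at h1
  have h2 := cap_nv hm P σ k (y := nv (q hm P τ)) rfl (nv_null _).le h1
  show dist ((q hm P τ : Circle) : ℂ) ((q hm P σ : Circle) : ℂ) < ε
  rw [Complex.dist_eq]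
  apply lt_of_pow_lt_pow_left₀ 2 hε.le
  rw [Complex.sq_norm, Complex.normSq_apply]
  calc _ = ((nv (q hm P τ)).1 - ((q hm P σ : Circle) : ℂ).re) ^ 2 +
        ((nv (q hm P τ)).2.1 - ((q hm P σ : Circle) : ℂ).im) ^ 2 := by
        simp [nv]; ring
    _ ≤ _ := h2
    _ < ε ^ 2 := hk

/-! ### surjectivity -/

/-- swapping the marked letter -/
def sw (a : Lv m) : Lv m :=
  match a.δ with
  | none => a
  | some true => ⟨a.z + 1, some false⟩
  | some false => ⟨a.z - 1, some true⟩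

theorem sw_mem (a : Lv m) (i : ZMod m) : (sw a).Mem i ↔ a.Mem i := by
  rcases a with ⟨z, _ | _ | _⟩
  · rfl
  · show (i = z - 1 ∨ ((some true : Option Bool) = some false ∧ i = z - 1 - 1) ∨
        ((some true : Option Bool) = some true ∧ i = z - 1 + 1)) ↔
      (i = z ∨ ((some false : Option Bool) = some false ∧ i = z - 1) ∨
        ((some false : Option Bool) = some true ∧ i = z + 1))
    rw [sub_add_cancel]
    simp
    tauto
  · show (i = z + 1 ∨ ((some false : Option Bool) = some false ∧ i = z + 1 - 1) ∨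
        ((some false : Option Bool) = some true ∧ i = z + 1 + 1)) ↔
      (i = z ∨ ((some true : Option Bool) = some false ∧ i = z - 1) ∨
        ((some true : Option Bool) = some true ∧ i = z + 1))
    rw [add_sub_cancel_right]
    simp
    tauto

theorem sw_lvp (hm : 5 ≤ m) (a : Lv m) : lvp (gen (cyc m)) (sw a) = lvp (gen (cyc m)) a := by
  rcases a with ⟨z, _ | _ | _⟩
  · rfl
  · show gen (cyc m) (z - 1) * gen (cyc m) (z - 1 + 1) = gen (cyc m) z * gen (cyc m) (z - 1)
    rw [sub_add_cancel]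
    exact (gen_comm (cyc m) (adj_pred hm z)).symm
  · show gen (cyc m) (z + 1) * gen (cyc m) (z + 1 - 1) = gen (cyc m) z * gen (cyc m) (z + 1)
    rw [add_sub_cancel_right]
    exact (gen_comm (cyc m) (adj_succ hm z)).symm

theorem mem_cases (a : Lv m) (i : ZMod m) (h : a.Mem i) : i = a.z ∨ i = (sw a).z := by
  rcases a with ⟨z, _ | _ | _⟩
  · rcases h with h | ⟨h, _⟩ | ⟨h, _⟩
    · exact Or.inl h
    · simp at h
    · simp at h
  · rcases h with h | ⟨_, h⟩ | ⟨h, _⟩
    · exact Or.inl h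
    · exact Or.inr h
    · simp at h
  · rcases h with h | ⟨h, _⟩ | ⟨_, h⟩
    · exact Or.inl h
    · simp at h
    · exact Or.inr h

theorem far_two (hm : 5 ≤ m) (z : ZMod m) : Far z (z + 2) := by
  have h1 := one_ne hm
  have h2 : ((2 : ℕ) : ZMod m) ≠ 0 := cast_ne hm 2 (by norm_num) (by norm_num)
  have h3 : ((3 : ℕ) : ZMod m) ≠ 0 := cast_ne hm 3 (by norm_num) (by norm_num)
  push_cast at h2 h3
  refine ⟨?_, ?_, ?_⟩
  · intro h; apply h2; linear_combination h
  · intro h; apply h1; linear_combination h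
  · intro h; apply h3; linear_combination -h

/-- two vertices with positive products are not far -/
theorem not_far (P : Geo m) {u : E} (hu : FC u) {i j : ZMod m} (hi : 0 < B u (P.e i))
    (hj : 0 < B u (P.e j)) : ¬ Far i j := by
  intro h
  have h1 := FC_FT hu (P.ft h)
  rw [B_add, B_smul] at h1
  have := P.hκ
  nlinarith

theorem exists_lv (hm : 5 ≤ m) (P : Geo m) {u : E} (h0 : B u u = 0) (h3 : 0 < u.2.2) :
    ∃ a : Lv m, ∀ i, a.Mem i ↔ 0 < B u (P.e i) := by
  obtain ⟨z, hz⟩ := P.ne u h0 h3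
  have hu : FC u := ⟨h0.le, h3⟩
  have key : ∀ i, 0 < B u (P.e i) → i = z ∨ i = z + 1 ∨ z = i + 1 := by
    intro i hi
    have := not_far P hu hz hi
    unfold Far at this
    by_contra hc
    push Not at hc
    exact this ⟨hc.1, hc.2.1, hc.2.2⟩
  by_cases h1 : 0 < B u (P.e (z + 1))
  · refine ⟨⟨z, some true⟩, fun i => ?_⟩
    have h2 : ¬ 0 < B u (P.e (z - 1)) := by
      intro h
      have hf := far_two hm (z - 1)
      have : z - 1 + 2 = z + 1 := by ring
      rw [this] at hf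
      exact not_far P hu h h1 hf
    constructor
    · rintro (h | ⟨h, _⟩ | ⟨_, h⟩)
      · have h : i = z := h
        rw [h]; exact hz
      · simp at h
      · have h : i = z + 1 := h
        rw [h]; exact h1
    · intro hi
      rcases key i hi with h | h | h
      · exact Or.inl h
      · exact Or.inr (Or.inr ⟨rfl, h⟩)
      · exfalso
        apply h2
        have : z - 1 = i := by rw [h]; ring
        rw [this]; exact hi
  · by_cases h2 : 0 < B u (P.e (z - 1))
    · refine ⟨⟨z, some false⟩, fun i => ?_⟩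
      constructor
      · rintro (h | ⟨_, h⟩ | ⟨h, _⟩)
        · have h : i = z := h
          rw [h]; exact hz
        · have h : i = z - 1 := h
          rw [h]; exact h2
        · simp at h
      · intro hi
        rcases key i hi with h | h | h
        · exact Or.inl h
        · exfalso; apply h1; rw [← h]; exact hi
        · exact Or.inr (Or.inl ⟨rfl, by show i = z - 1; rw [h]; ring⟩)
    · refine ⟨⟨z, none⟩, fun i => ?_⟩
      constructor
      · rintro (h | ⟨h, _⟩ | ⟨h, _⟩)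
        · have h : i = z := h
          rw [h]; exact hz
        · simp at h
        · simp at h
      · intro hi
        rcases key i hi with h | h | h
        · exact Or.inl h
        · exfalso; apply h1; rw [← h]; exact hi
        · exfalso
          apply h2
          have : z - 1 = i := by rw [h]; ring
          rw [this]; exact hi

/-- prepend a level -/
def cons (a : Lv m) (σ : Sq m) (h : Ok a (σ.1 0)) : Sq m :=
  ⟨fun k => match k with
    | 0 => a
    | k + 1 => σ.1 k, fun k => by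
      cases k with
      | zero => exact h
      | succ k => exact σ.2 k⟩

/-- a sequence with a given start -/
def start (hm : 5 ≤ m) (a : Lv m) : Sq m :=
  ⟨fun k => match k with
    | 0 => a
    | k + 1 => ⟨a.z + 2 * (k + 1 : ℕ), none⟩, fun k => by
      cases k with
      | zero =>
        show Ok a ⟨a.z + 2 * ((0 + 1 : ℕ) : ZMod m), none⟩
        have h0 : a.z + 2 * ((0 + 1 : ℕ) : ZMod m) = a.z + 2 := by push_cast; ring
        rw [h0]
        refine ⟨far_two hm _, ?_⟩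
        rintro i (h | ⟨h, _⟩ | ⟨h, _⟩)
        · refine ⟨a.z, Or.inl rfl, ?_⟩
          have h : i = a.z + 2 := h
          rw [h]
          exact far_two hm _
        · simp at h
        · simp at h
      | succ k =>
        show Ok (⟨a.z + 2 * ((k + 1 : ℕ) : ZMod m), none⟩ : Lv m)
          ⟨a.z + 2 * ((k + 1 + 1 : ℕ) : ZMod m), none⟩
        have h0 : a.z + 2 * ((k + 1 + 1 : ℕ) : ZMod m) =
            (a.z + 2 * ((k + 1 : ℕ) : ZMod m)) + 2 := by
          push_cast; ring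
        rw [h0]
        refine ⟨far_two hm _, ?_⟩
        rintro i (h | ⟨h, _⟩ | ⟨h, _⟩)
        · refine ⟨a.z + 2 * ((k + 1 : ℕ) : ZMod m), Or.inl rfl, ?_⟩
          have h : i = (a.z + 2 * ((k + 1 : ℕ) : ZMod m)) + 2 := h
          rw [h]
          exact far_two hm _
        · simp at h
        · simp at h⟩

theorem pc_cons (a : Lv m) (σ : Sq m) (h : Ok a (σ.1 0)) (k : ℕ) :
    pc (cons a σ h) (k + 1) = lvp (gen (cyc m)) a * pc σ k := by
  induction k with
  | zero =>
    show 1 * lvp _ a = lvp _ a * 1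
    rw [one_mul, mul_one]
  | succ k ih =>
    rw [pc_succ, ih, pc_succ, mul_assoc]
    rfl

theorem R_cons (P : Geo m) (a : Lv m) (σ : Sq m) (h : Ok a (σ.1 0)) (k : ℕ) :
    P.R (cons a σ h) (k + 1) = P.ρ (lvp (gen (cyc m)) a) (P.R σ k) := by
  unfold Geo.R
  rw [pc_cons, P.ρ_mul]
  rfl

theorem surj_aux (hm : 5 ≤ m) (P : Geo m) (n : ℕ) : ∀ u : E, B u u = 0 → 0 < u.2.2 →
    ∃ σ : Sq m, (∀ i, (σ.1 0).Mem i ↔ 0 < B u (P.e i)) ∧ ∀ k < n, 0 ≤ B u (P.R σ k) := by
  induction n with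
  | zero =>
    intro u h0 h3
    obtain ⟨a, ha⟩ := exists_lv hm P h0 h3
    exact ⟨start hm a, ha, fun k hk => by omega⟩
  | succ n ih =>
    intro u h0 h3
    obtain ⟨a1, ha1⟩ := exists_lv hm P h0 h3
    set L := lvp (gen (cyc m)) a1 with hL
    have hu : FC u := ⟨h0.le, h3⟩
    have hu' := P.ρ_FC L⁻¹ u hu
    obtain ⟨σ, hσ1, hσ2⟩ := ih (P.ρ L⁻¹ u) (by rw [P.ρ_B]; exact h0) hu'.2
    have key : ∀ j, (σ.1 0).Mem j → ∃ i, a1.Mem i ∧ Far i j := by
      intro j hj
      have h1 : 0 < B u (P.ρ L (P.e j)) := by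
        rw [← P.ρ_inv]; exact (hσ1 j).1 hj
      by_contra hc
      push Not at hc
      by_cases hja : a1.Mem j
      · rw [hL, lv_neg hm P a1 j hja, B_neg] at h1
        have := (ha1 j).1 hja
        linarith
      · rw [hL, lv_fix P a1 j] at h1
        · exact hja ((ha1 j).2 h1)
        · intro i hi
          rcases tri i j with h | h | h
          · exact absurd (h ▸ hi) hja
          · exact h.symm
          · exact absurd h (hc i hi)
    obtain ⟨i, hi, hf⟩ := key _ (Or.inl rfl)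
    obtain ⟨a, haz, ham, haL⟩ : ∃ a : Lv m, a.z = i ∧ (∀ j, a.Mem j ↔ a1.Mem j) ∧
        lvp (gen (cyc m)) a = L := by
      rcases mem_cases a1 i hi with h | h
      · exact ⟨a1, h.symm, fun _ => Iff.rfl, rfl⟩
      · exact ⟨sw a1, h.symm, sw_mem a1, sw_lvp hm a1⟩
    have hok : Ok a (σ.1 0) := by
      refine ⟨by rw [haz]; exact hf, fun j hj => ?_⟩
      obtain ⟨i', hi', hf'⟩ := key j hj
      exact ⟨i', (ham i').2 hi', hf'⟩
    refine ⟨cons a σ hok, fun j => ?_, fun k hk => ?_⟩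
    · show a.Mem j ↔ _
      rw [ham, ha1]
    · cases k with
      | zero =>
        show 0 ≤ B u (P.ρ 1 (P.e a.z))
        rw [P.ρ_one]
        exact ((ha1 _).1 ((ham _).1 (Or.inl rfl))).le
      | succ k =>
        rw [R_cons, haL, ← P.ρ_inv]
        exact hσ2 k (by omega)

theorem q_surj (hm : 5 ≤ m) (P : Geo m) : Function.Surjective (q hm P) := by
  intro ξ
  have := sq_compact hm
  have hcl : ∀ k, IsClosed {σ : Sq m | 0 ≤ B (nv ξ) (P.R σ k)} := by
    intro k
    have h1 : IsLocallyConstant fun σ : Sq m => B (nv ξ) (P.R σ k) :=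
      (R_locConst P k).comp (fun r => B (nv ξ) r)
    exact isClosed_le continuous_const h1.continuous
  have h1 := IsCompact.nonempty_iInter_of_sequence_nonempty_isCompact_isClosed
    (fun n => {σ : Sq m | ∀ k < n, 0 ≤ B (nv ξ) (P.R σ k)}) ?_ ?_ ?_ ?_
  · obtain ⟨σ, hσ⟩ := h1
    rw [Set.mem_iInter] at hσ
    refine ⟨σ, (q_unique hm P σ ξ (fun k => ?_)).symm⟩
    exact hσ (k + 1) k (by omega)
  · intro n σ hσ k hk
    exact hσ k (by omega)
  · intro n
    obtain ⟨σ, _, h⟩ := surj_aux hm P n (nv ξ) (nv_null ξ) (nv_FC ξ).2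
    exact ⟨σ, h⟩
  · have : {σ : Sq m | ∀ k < 0, 0 ≤ B (nv ξ) (P.R σ k)} = Set.univ := by
      ext σ; simp
    rw [this]
    exact isCompact_univ
  · intro n
    simp only [Set.ofPred_forall]
    exact isClosed_iInter fun k => isClosed_iInter fun _ => hcl k

/-! ### fibres -/

/-- the normalized orbit points -/
noncomputable def Geo.y (P : Geo m) (τ : Sq m) (l : ℕ) : E :=
  ((P.ρ (pc τ l) o).2.2)⁻¹ • P.ρ (pc τ l) o

theorem y3pos (P : Geo m) (τ : Sq m) (l : ℕ) : 0 < ((P.ρ (pc τ l) o).2.2)⁻¹ :=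
  inv_pos.2 (P.ρ_FT (pc τ l) FT_o).2

theorem y_three (P : Geo m) (τ : Sq m) (l : ℕ) : (P.y τ l).2.2 = 1 := by
  have := (P.ρ_FT (pc τ l) FT_o).2
  show ((P.ρ (pc τ l) o).2.2)⁻¹ * (P.ρ (pc τ l) o).2.2 = 1
  field_simp

theorem y_B (P : Geo m) (τ : Sq m) (l : ℕ) : B (P.y τ l) (P.y τ l) ≤ 0 := by
  unfold Geo.y
  rw [B_smul, B_smul_left]
  have h1 := (P.ρ_FT (pc τ l) FT_o).1
  have h2 := y3pos P τ l
  have h3 : 0 < ((P.ρ (pc τ l) o).2.2)⁻¹ * ((P.ρ (pc τ l) o).2.2)⁻¹ := by positivity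
  nlinarith

theorem y_tendsto (hm : 5 ≤ m) (P : Geo m) (τ : Sq m) (r : E) :
    Tendsto (fun l => B (P.y τ l) r) atTop (𝓝 (B (nv (q hm P τ)) r)) := by
  have h0 : ∀ l, ((P.y τ (l + 1)).1 - ((q hm P τ : Circle) : ℂ).re) ^ 2 +
      ((P.y τ (l + 1)).2.1 - ((q hm P τ : Circle) : ℂ).im) ^ 2 ≤ 5 / (P.κ ^ l * P.b) ^ 2 := by
    intro l
    apply cap_nv hm P τ l (y_three P τ _) (y_B P τ _)
    unfold Geo.y
    rw [B_smul_left]
    have h1 := beyond hm P τ 0 l
    rw [add_zero] at h1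
    have h2 := y3pos P τ (l + 1)
    positivity
  have sqz : ∀ (f : ℕ → ℝ), (∀ l, f l ^ 2 ≤ 5 / (P.κ ^ l * P.b) ^ 2) →
      Tendsto f atTop (𝓝 0) := by
    intro f hf
    have h1 : Tendsto (fun l => f l ^ 2) atTop (𝓝 0) :=
      squeeze_zero (fun l => sq_nonneg _) hf (h_tendsto P)
    have h2 := h1.sqrt
    simp only [Real.sqrt_sq_eq_abs, Real.sqrt_zero] at h2
    exact (tendsto_zero_iff_abs_tendsto_zero _).2 h2
  have t1 : Tendsto (fun l => (P.y τ l).1) atTop (𝓝 ((q hm P τ : Circle) : ℂ).re) := by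
    rw [← tendsto_add_atTop_iff_nat 1]
    have := sqz (fun l => (P.y τ (l + 1)).1 - ((q hm P τ : Circle) : ℂ).re)
      (fun l => by
        have := h0 l
        have := sq_nonneg ((P.y τ (l + 1)).2.1 - ((q hm P τ : Circle) : ℂ).im)
        linarith)
    have h3 := this.add_const (((q hm P τ : Circle) : ℂ).re)
    simpa using h3
  have t2 : Tendsto (fun l => (P.y τ l).2.1) atTop (𝓝 ((q hm P τ : Circle) : ℂ).im) := by
    rw [← tendsto_add_atTop_iff_nat 1]
    have := sqz (fun l => (P.y τ (l + 1)).2.1 - ((q hm P τ : Circle) : ℂ).im)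
      (fun l => by
        have := h0 l
        have := sq_nonneg ((P.y τ (l + 1)).1 - ((q hm P τ : Circle) : ℂ).re)
        linarith)
    have h3 := this.add_const (((q hm P τ : Circle) : ℂ).im)
    simpa using h3
  have t3 : Tendsto (fun l => (P.y τ l).2.2) atTop (𝓝 1) := by
    simp only [y_three]
    exact tendsto_const_nhds
  unfold B
  exact ((t1.mul_const _).add (t2.mul_const _)).sub (t3.mul_const _)

theorem y_pos_iff (hm : 5 ≤ m) (P : Geo m) (σ τ : Sq m) (k l : ℕ) :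
    N (pc τ l) (tk σ k) = 1 ↔ 0 < B (P.y τ l) (P.R σ k) := by
  rw [side_iff hm P]
  unfold Geo.y
  rw [B_smul_left]
  have h2 := y3pos P τ l
  constructor
  · intro h; positivity
  · intro h
    exact pos_of_mul_pos_of_pos_left' h2 h
where
  pos_of_mul_pos_of_pos_left' {a b : ℝ} (ha : 0 < a) (h : 0 < a * b) : 0 < b := by
    by_contra hc
    push Not at hc
    nlinarith

theorem st_D : ST_D := by
  intro m hm
  set P := geo hm with hP
  refine ⟨sq_compact hm, q hm P, q_cont hm P, q_surj hm P, ?_, ?_⟩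
  · intro σ τ h k
    have h1 := q_spec hm P σ (k + 1)
    have h2 := nest hm P σ k (nv_FC (q hm P σ))
    have h3 : 0 < B (nv (q hm P τ)) (P.R σ k) := by
      rw [← h]
      have := P.hκ
      by_contra hc
      push Not at hc
      nlinarith
    have h4 := (y_tendsto hm P τ (P.R σ k)).eventually (lt_mem_nhds h3)
    obtain ⟨l, hl⟩ := h4.exists
    exact ⟨l, (y_pos_iff hm P σ τ k l).2 hl⟩
  · intro σ τ h
    symm
    apply q_unique
    intro k
    obtain ⟨k', hk', l, hl⟩ := h k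
    obtain ⟨d, rfl⟩ := Nat.exists_eq_add_of_le hk'
    apply nest_le hm P σ k d (nv_FC _)
    apply ge_of_tendsto (y_tendsto hm P τ (P.R σ (k + d)))
    filter_upwards [eventually_ge_atTop l] with l' hl'
    obtain ⟨d', rfl⟩ := Nat.exists_eq_add_of_le hl'
    exact ((y_pos_iff hm P σ τ (k + d) (l + d')).1 (N_mono hm P τ _ l hl d')).le

end Pool.Agent.Helper53.RCD
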