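import Pool.Agent.Helper93.RC.Spec

/-!
# Module D (geometry): vectors of `ℝ^{2,1}` for the right-angled polygon
-/

namespace Pool.Agent.Helper53.RCD

open Pool.Agent.Helper93.RC Filter Topology Real

/-- Minkowski space -/
abbrev E := ℝ × ℝ × ℝ

/-- the Lorentz form -/
def B (x y : E) : ℝ := x.1 * y.1 + x.2.1 * y.2.1 - x.2.2 * y.2.2

theorem B_comm (x y : E) : B x y = B y x := by unfold B; ring
theorem B_add (x y z : E) : B x (y + z) = B x y + B x z := by simp [B]; ring
theorem B_sub (x y z : E) : B x (y - z) = B x y - B x z := by simp [B]; ring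
theorem B_smul (x y : E) (s : ℝ) : B x (s • y) = s * B x y := by simp [B]; ring
theorem B_neg (x y : E) : B x (-y) = - B x y := by simp [B]; ring
theorem B_add_left (x y z : E) : B (x + y) z = B x z + B y z := by simp [B]; ring
theorem B_sub_left (x y z : E) : B (x - y) z = B x z - B y z := by simp [B]; ring
theorem B_smul_left (x y : E) (s : ℝ) : B (s • x) y = s * B x y := by simp [B]; ring
theorem B_neg_left (x y : E) : B (-x) y = - B x y := by simp [B]; ring

/-- future timelike vectors -/
def FT (x : E) : Prop := B x x < 0 ∧ 0 < x.2.2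
/-- future causal vectors -/
def FC (x : E) : Prop := B x x ≤ 0 ∧ 0 < x.2.2

theorem FT.fc {x : E} (h : FT x) : FC x := ⟨h.1.le, h.2⟩

theorem FC_FT {x y : E} (hx : FC x) (hy : FT y) : B x y < 0 := by
  obtain ⟨h1, h2⟩ := hx
  obtain ⟨h3, h4⟩ := hy
  unfold B at *
  have e1 : (x.1*y.1 + x.2.1*y.2.1)^2 ≤ (x.1^2 + x.2.1^2) * (y.1^2+y.2.1^2) := by
    nlinarith [sq_nonneg (x.1*y.2.1 - x.2.1*y.1)]
  have e2 : (x.1^2+x.2.1^2) * (y.1^2+y.2.1^2) ≤ x.2.2^2 * (y.1^2+y.2.1^2) := by
    apply mul_le_mul_of_nonneg_right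
    · nlinarith
    · positivity
  have e3 : x.2.2^2 * (y.1^2+y.2.1^2) < x.2.2^2 * y.2.2^2 := by
    apply mul_lt_mul_of_pos_left
    · nlinarith
    · positivity
  have e4 : (x.1*y.1 + x.2.1*y.2.1)^2 < (x.2.2*y.2.2)^2 := by nlinarith
  have e5 := abs_lt_of_sq_lt_sq e4 (by positivity)
  linarith [(abs_lt.1 e5).2]

/-- the base point -/
def o : E := (0, 0, 1)

theorem FT_o : FT o := by
  constructor
  · simp [B, o]
  · simp [o]

theorem B_o (x : E) : B x o = - x.2.2 := by simp [B, o]

/-- the reflection -/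
noncomputable def rf (e : E) (he : B e e = 1) : E ≃ₗ[ℝ] E :=
  LinearEquiv.ofInvolutive
    { toFun := fun x => x - (2 * B x e) • e
      map_add' := fun x y => by rw [B_add_left]; module
      map_smul' := fun s x => by
        rw [B_smul_left, RingHom.id_apply]; module }
    (fun x => by
      show (x - (2 * B x e) • e) - (2 * B (x - (2 * B x e) • e) e) • e = x
      rw [B_sub_left, B_smul_left, he]
      module)

theorem rf_apply (e : E) (he : B e e = 1) (x : E) : rf e he x = x - (2 * B x e) • e := rfl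

theorem rf_B (e : E) (he : B e e = 1) (x y : E) : B (rf e he x) (rf e he y) = B x y := by
  rw [rf_apply, rf_apply, B_sub_left, B_sub, B_sub, B_smul, B_smul_left, B_smul, B_smul_left,
    he, B_comm e y]
  ring

/-- geometric data for the right-angled `m`-gon -/
structure Geo (m : ℕ) where
  e : ZMod m → E
  κ : ℝ
  b : ℝ
  hκ : 1 < κ
  hb : 0 < b
  e1 : ∀ i, B (e i) (e i) = 1
  e0 : ∀ i, B (e i) (e (i + 1)) = 0
  ef : ∀ i j, Far i j → B (e i) (e j) ≤ -κ
  e3 : ∀ i, (e i).2.2 = b
  ne : ∀ u, B u u = 0 → 0 < u.2.2 → ∃ i, 0 < B u (e i)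

variable {m : ℕ}

/-- angle of a vertex -/
noncomputable def th (i : ZMod m) : ℝ := 2 * π * i.val / m

theorem cos_th [NeZero m] (i j : ZMod m) (x : ℝ) (n : ℤ) (h : i - j = (n : ZMod m)) :
    cos (x + th i - th j) = cos (x + 2 * π * n / m) := by
  have hm : (m : ℝ) ≠ 0 := by exact_mod_cast NeZero.ne m
  have h1 : (((i.val : ℤ) - j.val - n : ℤ) : ZMod m) = 0 := by
    push_cast
    rw [ZMod.natCast_zmod_val, ZMod.natCast_zmod_val, h, sub_self]
  rw [ZMod.intCast_zmod_eq_zero_iff_dvd] at h1
  obtain ⟨k, hk⟩ := h1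
  have h2 : ((i.val : ℝ) - j.val - n) = m * k := by exact_mod_cast hk
  have h3 : x + th i - th j = (x + 2 * π * n / m) + k * (2 * π) := by
    unfold th
    field_simp
    linear_combination (2 * π) * h2
  rw [h3, Real.cos_add_int_mul_two_pi]

theorem cos_th' [NeZero m] (i : ZMod m) (x : ℝ) (n : ℤ) (h : i = (n : ZMod m)) :
    cos (x - th i) = cos (x - 2 * π * n / m) := by
  have h1 := cos_th (m := m) 0 i x (-n) (by rw [h]; push_cast; ring)
  have h2 : th (0 : ZMod m) = 0 := by simp [th]
  rw [h2, add_zero] at h1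
  rw [h1]
  congr 1
  push_cast
  ring

/-- `cos (2 π / m)` -/
noncomputable def cc (m : ℕ) : ℝ := cos (2 * π / m)

theorem cc_pos (hm : 5 ≤ m) : 0 < cc m := by
  have h0 : (5 : ℝ) ≤ m := by exact_mod_cast hm
  apply Real.cos_pos_of_mem_Ioo
  constructor
  · have : 0 < 2 * π / m := by positivity
    linarith [Real.pi_pos]
  · rw [div_lt_div_iff₀ (by positivity) (by norm_num)]
    nlinarith [Real.pi_pos]

theorem cc_lt (hm : 5 ≤ m) : cc m < 1 := by
  have h0 : (5 : ℝ) ≤ m := by exact_mod_cast hm
  have h1 : 0 < 2 * π / m := by positivity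
  have h2 : 2 * π / m ≤ π := by
    rw [div_le_iff₀ (by positivity)]
    nlinarith [Real.pi_pos]
  have := Real.cos_lt_cos_of_nonneg_of_le_pi (x := 0) le_rfl h2 h1
  rwa [Real.cos_zero] at this

theorem cos_far [NeZero m] (hm : 5 ≤ m) (i j : ZMod m) (h : Far i j) :
    cos (th i - th j) ≤ 2 * cc m ^ 2 - 1 := by
  have h0 : (5 : ℝ) ≤ m := by exact_mod_cast hm
  set n := (i - j).val with hn
  have hn1 : (n : ZMod m) = i - j := ZMod.natCast_zmod_val _
  have hlt : n < m := ZMod.val_lt _
  have h2n : 2 ≤ n := by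
    by_contra hc
    interval_cases hh : n
    · apply h.1
      have : i - j = 0 := by rw [← hn1]; simp
      exact (sub_eq_zero.1 this).symm
    · apply h.2.2
      have : i - j = 1 := by rw [← hn1]; simp
      rw [← this]; ring
  have hn2 : n + 2 ≤ m := by
    by_contra hc
    have : n = m - 1 := by omega
    apply h.2.1
    have h3 : ((m - 1 : ℕ) : ZMod m) = i - j := by rw [← this]; exact hn1
    have h4 : ((m - 1 : ℕ) : ZMod m) = -1 := by
      have : ((m - 1 + 1 : ℕ) : ZMod m) = 0 := by
        rw [Nat.sub_add_cancel (by omega)]; simp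
      push_cast at this
      linear_combination this
    rw [h4] at h3
    linear_combination h3
  have h5 : cos (th i - th j) = cos (2 * π * n / m) := by
    have := cos_th (m := m) i j 0 n (by rw [← hn1]; simp)
    simpa using this
  have h6 : 2 * cc m ^ 2 - 1 = cos (4 * π / m) := by
    rw [cc, ← Real.cos_two_mul]
    congr 1
    ring
  rw [h5, h6]
  have hmp : (0 : ℝ) < m := by linarith
  have h2n' : (2 : ℝ) ≤ n := by exact_mod_cast h2n
  have hn2' : (n : ℝ) + 2 ≤ m := by exact_mod_cast hn2
  rcases le_total (2 * π * n / m) π with hle | hle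
  · apply Real.cos_le_cos_of_nonneg_of_le_pi
    · positivity
    · exact hle
    · apply div_le_div_of_nonneg_right _ hmp.le
      nlinarith [Real.pi_pos]
  · have h7 : cos (2 * π * n / m) = cos (2 * π - 2 * π * n / m) := by
      rw [Real.cos_two_pi_sub]
    rw [h7]
    apply Real.cos_le_cos_of_nonneg_of_le_pi
    · positivity
    · linarith
    · have : 2 * π - 2 * π * n / m = 2 * π * (m - n) / m := by
        field_simp
      rw [this]
      apply div_le_div_of_nonneg_right _ hmp.le
      nlinarith [Real.pi_pos]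

/-- the polygon -/
noncomputable def geo (hm : 5 ≤ m) : Geo m :=
  haveI : NeZero m := ⟨by omega⟩
  have hc0 := cc_pos hm
  have hc1 := cc_lt hm
  have hd : 0 < 1 - cc m := by linarith
  have ha2 : (1 / √(1 - cc m)) ^ 2 = 1 / (1 - cc m) := by
    rw [div_pow, Real.sq_sqrt hd.le, one_pow]
  have hb2 : (√(cc m / (1 - cc m))) ^ 2 = cc m / (1 - cc m) := by
    rw [Real.sq_sqrt (by positivity)]
  have key : ∀ i j : ZMod m,
      B ((1 / √(1 - cc m)) * cos (th i), (1 / √(1 - cc m)) * sin (th i), √(cc m / (1 - cc m)))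
        ((1 / √(1 - cc m)) * cos (th j), (1 / √(1 - cc m)) * sin (th j), √(cc m / (1 - cc m)))
        = (cos (th i - th j) - cc m) / (1 - cc m) := by
    intro i j
    have h1 : B ((1 / √(1 - cc m)) * cos (th i), (1 / √(1 - cc m)) * sin (th i),
        √(cc m / (1 - cc m))) ((1 / √(1 - cc m)) * cos (th j), (1 / √(1 - cc m)) * sin (th j),
        √(cc m / (1 - cc m))) = (1 / √(1 - cc m)) ^ 2 * cos (th i - th j)
          - (√(cc m / (1 - cc m))) ^ 2 := by
      rw [Real.cos_sub]
      unfold B
      ring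
    rw [h1, ha2, hb2]
    field_simp
  { e := fun i => ((1 / √(1 - cc m)) * cos (th i), (1 / √(1 - cc m)) * sin (th i),
      √(cc m / (1 - cc m)))
    κ := 1 + 2 * cc m
    b := √(cc m / (1 - cc m))
    hκ := by linarith
    hb := by positivity
    e1 := by
      intro i
      rw [key, sub_self, Real.cos_zero, div_self hd.ne']
    e0 := by
      intro i
      have : cos (th i - th (i + 1)) = cc m := by
        have h2 := cos_th (m := m) i (i + 1) 0 (-1) (by push_cast; ring)
        rw [zero_add, zero_add] at h2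
        rw [h2, cc, ← Real.cos_neg]
        congr 1
        push_cast
        ring
      rw [key, this, sub_self, zero_div]
    ef := by
      intro i j h
      rw [key, div_le_iff₀ hd]
      have := cos_far hm i j h
      nlinarith
    e3 := fun i => rfl
    ne := by
      intro u hu hu3
      -- polar coordinates
      have hmR : (0 : ℝ) < m := by exact_mod_cast (by omega : 0 < m)
      have h5R : (5 : ℝ) ≤ m := by exact_mod_cast hm
      have h1 : (u.1 / u.2.2) ^ 2 + (u.2.1 / u.2.2) ^ 2 = 1 := by
        unfold B at hu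
        field_simp
        nlinarith
      obtain ⟨φ, hφ1, hφ2⟩ : ∃ φ : ℝ, cos φ = u.1 / u.2.2 ∧ sin φ = u.2.1 / u.2.2 := by
        have hz : ‖(⟨u.1 / u.2.2, u.2.1 / u.2.2⟩ : ℂ)‖ = 1 := by
          rw [Complex.norm_def, Complex.normSq_mk, Real.sqrt_eq_one]
          nlinarith
        refine ⟨Complex.arg ⟨u.1 / u.2.2, u.2.1 / u.2.2⟩, ?_, ?_⟩
        · rw [Complex.cos_arg (by intro h; rw [h] at hz; simp at hz), hz]
          simp
        · rw [Complex.sin_arg, hz]
          simp
      set n : ℤ := round (φ * m / (2 * π)) with hn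
      have hr := abs_sub_round (φ * m / (2 * π))
      rw [← hn] at hr
      refine ⟨(n : ZMod m), ?_⟩
      have h2 := cos_th' (m := m) (n : ZMod m) φ n rfl
      have h3 : |φ - 2 * π * n / m| ≤ π / m := by
        have : φ - 2 * π * n / m = (2 * π / m) * (φ * m / (2 * π) - n) := by
          field_simp
        rw [this, abs_mul, abs_of_pos (by positivity)]
        calc (2 * π / m) * |φ * m / (2 * π) - n| ≤ (2 * π / m) * (1 / 2) := by
              apply mul_le_mul_of_nonneg_left hr (by positivity)
          _ = π / m := by ring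
      have h4 : cos (π / m) ≤ cos (φ - 2 * π * n / m) := by
        rw [← Real.cos_abs (φ - 2 * π * n / m)]
        apply Real.cos_le_cos_of_nonneg_of_le_pi (abs_nonneg _)
        · rw [div_le_iff₀ hmR]
          nlinarith [Real.pi_pos]
        · exact h3
      have h5 : 0 < cos (π / m) := by
        apply Real.cos_pos_of_mem_Ioo
        constructor
        · have : 0 < π / m := by positivity
          linarith [Real.pi_pos]
        · rw [div_lt_div_iff₀ hmR (by norm_num)]
          nlinarith [Real.pi_pos]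
      have h6 : cos (π / m) ^ 2 = (1 + cc m) / 2 := by
        rw [Real.cos_sq, cc]
        ring_nf
      have h7 : √(cc m / (1 - cc m)) < (1 / √(1 - cc m)) * cos (π / m) := by
        have h8 : 0 < (1 / √(1 - cc m)) * cos (π / m) := by positivity
        apply lt_of_pow_lt_pow_left₀ 2 h8.le
        rw [hb2, mul_pow, ha2, h6, div_lt_iff₀ hd]
        field_simp
        linarith
      have h8 : B u ((1 / √(1 - cc m)) * cos (th (n : ZMod m)),
          (1 / √(1 - cc m)) * sin (th (n : ZMod m)), √(cc m / (1 - cc m)))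
          = u.2.2 * ((1 / √(1 - cc m)) * cos (φ - th (n : ZMod m)) - √(cc m / (1 - cc m))) := by
        rw [Real.cos_sub, hφ1, hφ2]
        unfold B
        field_simp
      show 0 < B u ((1 / √(1 - cc m)) * cos (th (n : ZMod m)),
          (1 / √(1 - cc m)) * sin (th (n : ZMod m)), √(cc m / (1 - cc m)))
      rw [h8, h2]
      apply mul_pos hu3
      have h9 : (1 / √(1 - cc m)) * cos (π / m) ≤
          (1 / √(1 - cc m)) * cos (φ - 2 * π * n / m) :=
        mul_le_mul_of_nonneg_left h4 (by positivity)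
      linarith }

end Pool.Agent.Helper53.RCD
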