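import Pool.Agent.Helper53.RC.Rep

/-!
# Module D: levels, heights, nested half spaces
-/

namespace Pool.Agent.Helper53.RCD

open Pool.Agent.Helper93.RC Filter Topology

variable {m : ℕ}

theorem one_ne (hm : 5 ≤ m) : (1 : ZMod m) ≠ 0 := by
  have : Fact (1 < m) := ⟨by omega⟩
  exact one_ne_zero

theorem cast_ne (hm : 5 ≤ m) (n : ℕ) (h0 : 0 < n) (h4 : n ≤ 4) : ((n : ℕ) : ZMod m) ≠ 0 := by
  intro h
  rw [ZMod.natCast_eq_zero_iff] at h
  have := Nat.le_of_dvd h0 h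
  omega

theorem adj_succ (hm : 5 ≤ m) (z : ZMod m) : (cyc m).Adj z (z + 1) := by
  rw [cyc_adj]
  refine ⟨?_, Or.inl rfl⟩
  intro h
  apply one_ne hm
  linear_combination (-1 : ZMod m) * h

theorem adj_pred (hm : 5 ≤ m) (z : ZMod m) : (cyc m).Adj z (z - 1) := by
  have := adj_succ hm (z - 1)
  rw [sub_add_cancel] at this
  exact this.symm

theorem lv_neg (hm : 5 ≤ m) (P : Geo m) (a : Lv m) (i : ZMod m) (h : a.Mem i) :
    P.ρ (lvp (gen (cyc m)) a) (P.e i) = - P.e i := by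
  have hs : B (P.e (a.z + 1)) (P.e a.z) = 0 := by rw [B_comm]; exact P.e0 _
  have hp : B (P.e (a.z - 1)) (P.e a.z) = 0 := by
    have := P.e0 (a.z - 1)
    rwa [sub_add_cancel] at this
  have hs' : B (P.e a.z) (P.e (a.z + 1)) = 0 := by rw [B_comm]; exact hs
  have hp' : B (P.e a.z) (P.e (a.z - 1)) = 0 := by rw [B_comm]; exact hp
  rcases a with ⟨z, _ | _ | _⟩
  · -- none
    rcases h with rfl | ⟨h, _⟩ | ⟨h, _⟩
    · show P.ρ (gen (cyc m) _) _ = _
      rw [P.ρ_gen]; exact P.r_self _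
    · simp at h
    · simp at h
  · -- some false
    show P.ρ (gen (cyc m) z * gen (cyc m) (z - 1)) _ = _
    rw [P.ρ_mul, P.ρ_gen, P.ρ_gen]
    rcases h with rfl | ⟨_, rfl⟩ | ⟨h, _⟩
    · rw [P.r_perp _ hp', P.r_self]
    · rw [P.r_self, map_neg, P.r_perp _ hp]
    · simp at h
  · -- some true
    show P.ρ (gen (cyc m) z * gen (cyc m) (z + 1)) _ = _
    rw [P.ρ_mul, P.ρ_gen, P.ρ_gen]
    rcases h with rfl | ⟨h, _⟩ | ⟨_, rfl⟩
    · rw [P.r_perp _ hs', P.r_self]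
    · simp at h
    · rw [P.r_self, map_neg, P.r_perp _ hs]

theorem lv_fix (P : Geo m) (a : Lv m) (i : ZMod m)
    (h : ∀ j, a.Mem j → (cyc m).Adj i j) :
    P.ρ (lvp (gen (cyc m)) a) (P.e i) = P.e i := by
  have h0 : B (P.e i) (P.e a.z) = 0 := P.adj (h _ (Or.inl rfl))
  rcases a with ⟨z, _ | _ | _⟩
  · show P.ρ (gen (cyc m) _) _ = _
    rw [P.ρ_gen, P.r_perp _ h0]
  · show P.ρ (gen (cyc m) z * gen (cyc m) (z - 1)) _ = _
    have h1 : B (P.e i) (P.e (z - 1)) = 0 := P.adj (h _ (Or.inr (Or.inl ⟨rfl, rfl⟩)))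
    rw [P.ρ_mul, P.ρ_gen, P.ρ_gen, P.r_perp _ h1, P.r_perp _ h0]
  · show P.ρ (gen (cyc m) z * gen (cyc m) (z + 1)) _ = _
    have h1 : B (P.e i) (P.e (z + 1)) = 0 := P.adj (h _ (Or.inr (Or.inr ⟨rfl, rfl⟩)))
    rw [P.ρ_mul, P.ρ_gen, P.ρ_gen, P.r_perp _ h1, P.r_perp _ h0]

theorem lv_N (hm : 5 ≤ m) (a : Lv m) (t : RACG (cyc m)) (h : N (lvp (gen (cyc m)) a) t = 1) :
    ∃ i, a.Mem i ∧ t = gen (cyc m) i := by
  classical
  have two : ∀ z y : ZMod m, (cyc m).Adj z y → N (gen (cyc m) z * gen (cyc m) y) t = 1 →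
      t = gen (cyc m) z ∨ t = gen (cyc m) y := by
    intro z y hzy hN
    rw [N_mul, N_gen, N_gen, gen_inv] at hN
    by_cases h1 : t = gen (cyc m) z
    · exact Or.inl h1
    · by_cases h2 : gen (cyc m) z * t * gen (cyc m) z = gen (cyc m) y
      · right
        have hc := gen_comm (cyc m) hzy
        calc t = (gen (cyc m) z * gen (cyc m) z) * t * (gen (cyc m) z * gen (cyc m) z) := by
              rw [gen_sq]; group
          _ = gen (cyc m) z * (gen (cyc m) z * t * gen (cyc m) z) * gen (cyc m) z := by group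
          _ = gen (cyc m) z * gen (cyc m) y * gen (cyc m) z := by rw [h2]
          _ = gen (cyc m) y * (gen (cyc m) z * gen (cyc m) z) := by rw [hc]; group
          _ = gen (cyc m) y := by rw [gen_sq, mul_one]
      · rw [if_neg h1, if_neg h2] at hN
        simp at hN
  rcases a with ⟨z, _ | _ | _⟩
  · change N (gen (cyc m) z) t = 1 at h
    rw [N_gen] at h
    by_cases h1 : t = gen (cyc m) z
    · exact ⟨z, Or.inl rfl, h1⟩
    · rw [if_neg h1] at h; simp at h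
  · rcases two z (z - 1) (adj_pred hm z) h with h1 | h1
    · exact ⟨z, Or.inl rfl, h1⟩
    · exact ⟨z - 1, Or.inr (Or.inl ⟨rfl, rfl⟩), h1⟩
  · rcases two z (z + 1) (adj_succ hm z) h with h1 | h1
    · exact ⟨z, Or.inl rfl, h1⟩
    · exact ⟨z + 1, Or.inr (Or.inr ⟨rfl, rfl⟩), h1⟩

theorem pc_succ (σ : Sq m) (k : ℕ) :
    pc σ (k + 1) = pc σ k * lvp (gen (cyc m)) (σ.1 k) := rfl

theorem step_neg (hm : 5 ≤ m) (P : Geo m) (σ : Sq m) (k : ℕ) (i : ZMod m) (h : (σ.1 k).Mem i) :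
    P.ρ (pc σ (k + 1)) (P.e i) = - P.ρ (pc σ k) (P.e i) := by
  rw [pc_succ, P.ρ_mul, lv_neg hm P _ _ h, map_neg]

/-- heights grow exponentially -/
theorem height (hm : 5 ≤ m) (P : Geo m) (σ : Sq m) (k : ℕ) : ∀ i, (σ.1 k).Mem i →
    P.κ ^ k * P.b ≤ (P.ρ (pc σ k) (P.e i)).2.2 := by
  induction k with
  | zero =>
    intro i _
    show _ ≤ (P.ρ 1 (P.e i)).2.2
    rw [P.ρ_one, P.e3, pow_zero, one_mul]
  | succ k ih =>
    intro i hi
    obtain ⟨j, hj, hf⟩ := (σ.2 k).2 i hi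
    have h1 := (P.ρ_FT (pc σ (k + 1)) (P.ft hf)).2
    rw [map_add, map_smul, step_neg hm P σ k j hj] at h1
    have h2 := ih j hj
    have h3 : (P.ρ (pc σ (k + 1)) (P.e i) + P.κ • -P.ρ (pc σ k) (P.e j)).2.2 =
      (P.ρ (pc σ (k + 1)) (P.e i)).2.2 - P.κ * (P.ρ (pc σ k) (P.e j)).2.2 := by
      simp; ring
    rw [h3] at h1
    have h4 : P.κ * (P.κ ^ k * P.b) ≤ P.κ * (P.ρ (pc σ k) (P.e j)).2.2 :=
      mul_le_mul_of_nonneg_left h2 (by linarith [P.hκ])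
    rw [pow_succ]
    nlinarith

/-- the root of the marked letter of level `k` -/
noncomputable def Geo.R (P : Geo m) (σ : Sq m) (k : ℕ) : E := P.ρ (pc σ k) (P.e (σ.1 k).z)

theorem R_self (P : Geo m) (σ : Sq m) (k : ℕ) : B (P.R σ k) (P.R σ k) = 1 := by
  rw [Geo.R, P.ρ_B, P.e1]

theorem R_height (hm : 5 ≤ m) (P : Geo m) (σ : Sq m) (k : ℕ) :
    P.κ ^ k * P.b ≤ (P.R σ k).2.2 := height hm P σ k _ (Or.inl rfl)

theorem hpos (P : Geo m) (k : ℕ) : 0 < P.κ ^ k * P.b := by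
  have := P.hκ
  have := P.hb
  positivity

/-- nestedness of the half spaces -/
theorem nest (hm : 5 ≤ m) (P : Geo m) (σ : Sq m) (k : ℕ) {x : E} (hx : FC x) :
    B x (P.R σ (k + 1)) < P.κ * B x (P.R σ k) := by
  have h1 := FC_FT hx (P.ρ_FT (pc σ (k + 1)) (P.ft (σ.2 k).1))
  rw [map_add, map_smul, step_neg hm P σ k _ (Or.inl rfl), B_add, B_smul, B_neg] at h1
  unfold Geo.R
  linarith

theorem N_base (hm : 5 ≤ m) (P : Geo m) (σ : Sq m) (k : ℕ) (i : ZMod m) (h : (σ.1 k).Mem i) :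
    N (pc σ k) (pc σ k * gen (cyc m) i * (pc σ k)⁻¹) = 0 := by
  rw [← N_inv]
  apply P.sign0'
  rw [P.ρ_inv, B_comm, B_o]
  have := height hm P σ k i h
  have := hpos P k
  linarith

/-- sides of the wall `tk σ k` -/
theorem side_iff (hm : 5 ≤ m) (P : Geo m) (σ : Sq m) (k : ℕ) (h : RACG (cyc m)) :
    N h (tk σ k) = 1 ↔ 0 < B (P.ρ h o) (P.R σ k) := by
  have h1 : N ((pc σ k)⁻¹ * h) (gen (cyc m) (σ.1 k).z) = N h (tk σ k) := by
    rw [N_mul, inv_inv, N_inv, N_base hm P σ k _ (Or.inl rfl), zero_add]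
    rfl
  have h2 : B (P.ρ ((pc σ k)⁻¹ * h) o) (P.e (σ.1 k).z) = B (P.ρ h o) (P.R σ k) := by
    rw [P.ρ_mul, P.ρ_inv]
    rfl
  rw [← h1, ← h2]
  constructor
  · exact P.sign1 _ _
  · exact P.sign1' _ _

/-- later points are beyond the earlier walls -/
theorem beyond (hm : 5 ≤ m) (P : Geo m) (σ : Sq m) (d : ℕ) : ∀ k,
    0 < B (P.ρ (pc σ (k + 1 + d)) o) (P.R σ k) := by
  induction d with
  | zero =>
    intro k
    have h1 : P.R σ k = - P.ρ (pc σ (k + 1)) (P.e (σ.1 k).z) := by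
      rw [step_neg hm P σ k _ (Or.inl rfl), neg_neg]; rfl
    rw [add_zero, h1, B_neg, P.ρ_B, B_comm, B_o, P.e3, neg_neg]
    exact P.hb
  | succ d ih =>
    intro k
    have h1 := ih (k + 1)
    have h2 : k + 1 + 1 + d = k + 1 + (d + 1) := by ring
    rw [h2] at h1
    have h3 := nest hm P σ k (P.ρ_FT (pc σ (k + 1 + (d + 1))) FT_o).fc
    have := P.hκ
    by_contra hc
    push Not at hc
    nlinarith

/-- a wall once crossed stays crossed -/
theorem N_mono (hm : 5 ≤ m) (P : Geo m) (τ : Sq m) (t : RACG (cyc m)) (l : ℕ)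
    (h : N (pc τ l) t = 1) : ∀ d, N (pc τ (l + d)) t = 1 := by
  intro d
  induction d with
  | zero => exact h
  | succ d ih =>
    rw [← add_assoc, pc_succ, N_mul, ih]
    rcases zmod2 (N (lvp (gen (cyc m)) (τ.1 (l + d))) ((pc τ (l + d))⁻¹ * t * pc τ (l + d)))
      with h1 | h1
    · rw [h1, add_zero]
    · exfalso
      obtain ⟨i, hi, h2⟩ := lv_N hm _ _ h1
      have h3 : t = pc τ (l + d) * gen (cyc m) i * (pc τ (l + d))⁻¹ := by
        rw [← h2]; group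
      have h4 := N_base hm P τ (l + d) i hi
      rw [← h3, ih] at h4
      exact absurd h4 (by decide)

/-! ### caps -/

/-- the distance of two points in the half space with root `r` of height at least `h` -/
theorem cap {y y' r : E} {h : ℝ} (h0 : 0 < h) (hy : y.2.2 = 1) (hy' : y'.2.2 = 1)
    (hB : B y y ≤ 0) (hB' : B y' y' ≤ 0) (hr : B r r = 1) (hh : h ≤ r.2.2)
    (h1 : 0 ≤ B y r) (h2 : 0 ≤ B y' r) :
    (y.1 - y'.1) ^ 2 + (y.2.1 - y'.2.1) ^ 2 ≤ 5 / h ^ 2 := by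
  obtain ⟨a, b, c⟩ := y
  obtain ⟨a', b', c'⟩ := y'
  obtain ⟨u, v, w⟩ := r
  simp only [B] at *
  subst hy hy'
  have e1 : u ^ 2 + v ^ 2 = 1 + w ^ 2 := by nlinarith
  have hw : 0 < w := by linarith
  have gen1 : ∀ a b : ℝ, a * a + b * b - 1 * 1 ≤ 0 → 0 ≤ a * u + b * v - 1 * w →
      w ≤ a * u + b * v ∧ a * u + b * v ≤ w + 1 ∧ (a * v - b * u) ^ 2 ≤ 1 := by
    intro a b hab hab'
    have f1 : (a * u + b * v) ^ 2 + (a * v - b * u) ^ 2 = (a * a + b * b) * (1 + w ^ 2) := by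
      rw [← e1]; ring
    have f2 : (a * a + b * b) * (1 + w ^ 2) ≤ 1 + w ^ 2 := by nlinarith [sq_nonneg w]
    have f3 : w ≤ a * u + b * v := by linarith
    refine ⟨f3, ?_, ?_⟩
    · by_contra hc
      push Not at hc
      nlinarith [sq_nonneg (a * v - b * u)]
    · nlinarith
  obtain ⟨p1, p2, p3⟩ := gen1 a b hB h1
  obtain ⟨q1, q2, q3⟩ := gen1 a' b' hB' h2
  have g1 : ((a - a') ^ 2 + (b - b') ^ 2) * (1 + w ^ 2) ≤ 5 := by
    have : ((a - a') ^ 2 + (b - b') ^ 2) * (1 + w ^ 2) =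
        ((a * u + b * v) - (a' * u + b' * v)) ^ 2 +
          ((a * v - b * u) - (a' * v - b' * u)) ^ 2 := by
      rw [← e1]; ring
    rw [this]
    have k1 : ((a * u + b * v) - (a' * u + b' * v)) ^ 2 ≤ 1 := by
      rw [sq_le_one_iff_abs_le_one, abs_le]
      constructor <;> linarith
    have k2 : ((a * v - b * u) - (a' * v - b' * u)) ^ 2 ≤ 4 := by
      nlinarith [sq_nonneg ((a * v - b * u) + (a' * v - b' * u))]
    linarith
  rw [le_div_iff₀ (by positivity)]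
  have g2 : h ^ 2 ≤ 1 + w ^ 2 := by nlinarith
  calc ((a - a') ^ 2 + (b - b') ^ 2) * h ^ 2
      ≤ ((a - a') ^ 2 + (b - b') ^ 2) * (1 + w ^ 2) :=
        mul_le_mul_of_nonneg_left g2 (by positivity)
    _ ≤ 5 := g1

end Pool.Agent.Helper53.RCD
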