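import Pool.Agent.Helper53.RC.Geo

/-!
# Module D: the reflection representation and the sign lemma
-/

namespace Pool.Agent.Helper53.RCD

open Pool.Agent.Helper93.RC Filter Topology

variable {m : ℕ}

theorem cyc_adj (i j : ZMod m) : (cyc m).Adj i j ↔ i ≠ j ∧ (j = i + 1 ∨ i = j + 1) := by
  simp [cyc, SimpleGraph.fromRel_adj]

theorem far_symm {i j : ZMod m} (h : Far i j) : Far j i := ⟨Ne.symm h.1, h.2.2, h.2.1⟩

theorem tri (i j : ZMod m) : i = j ∨ (cyc m).Adj i j ∨ Far i j := by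
  by_cases h1 : i = j
  · exact Or.inl h1
  · by_cases h2 : j = i + 1
    · exact Or.inr (Or.inl ((cyc_adj i j).2 ⟨h1, Or.inl h2⟩))
    · by_cases h3 : i = j + 1
      · exact Or.inr (Or.inl ((cyc_adj i j).2 ⟨h1, Or.inr h3⟩))
      · exact Or.inr (Or.inr ⟨Ne.symm h1, h2, h3⟩)

theorem Geo.adj (P : Geo m) {i j : ZMod m} (h : (cyc m).Adj i j) : B (P.e i) (P.e j) = 0 := by
  rcases ((cyc_adj i j).1 h).2 with rfl | rfl
  · exact P.e0 i
  · rw [B_comm]; exact P.e0 j

/-- `e_j + κ e_i` is future timelike when `i`, `j` are far -/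
theorem Geo.ft (P : Geo m) {i j : ZMod m} (h : Far i j) : FT (P.e j + P.κ • P.e i) := by
  have h1 := P.ef i j h
  have h2 := P.hκ
  constructor
  · rw [B_add, B_add_left, B_add_left, B_smul, B_smul, B_smul_left, B_smul_left, P.e1, P.e1,
      B_comm (P.e j) (P.e i)]
    nlinarith
  · have : (P.e j + P.κ • P.e i).2.2 = P.b + P.κ * P.b := by
      simp [P.e3]
    rw [this]
    have := P.hb
    nlinarith

/-- the reflection of a vertex -/
noncomputable def Geo.r (P : Geo m) (i : ZMod m) : E ≃ₗ[ℝ] E := rf (P.e i) (P.e1 i)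

theorem Geo.r_apply (P : Geo m) (i : ZMod m) (x : E) :
    P.r i x = x - (2 * B x (P.e i)) • P.e i := rfl

theorem Geo.r_self (P : Geo m) (i : ZMod m) : P.r i (P.e i) = - P.e i := by
  rw [P.r_apply, P.e1]; module

theorem Geo.r_perp (P : Geo m) (i : ZMod m) {x : E} (h : B x (P.e i) = 0) : P.r i x = x := by
  rw [P.r_apply, h]; module

theorem Geo.r_r (P : Geo m) (i : ZMod m) (x : E) : P.r i (P.r i x) = x := by
  rw [P.r_apply (x := P.r i x), P.r_apply, B_sub_left, B_smul_left, P.e1]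
  module

/-- the reflection representation -/
noncomputable def Geo.ρ (P : Geo m) : RACG (cyc m) →* (E ≃ₗ[ℝ] E) :=
  lift (fun i => P.r i)
    (fun i => by
      ext1 x
      exact P.r_r i x)
    (fun i j h => by
      ext1 x
      show P.r i (P.r j x) = P.r j (P.r i x)
      have h1 := P.adj h
      rw [P.r_apply j x, P.r_apply i x, P.r_apply, P.r_apply, B_sub_left, B_sub_left, B_smul_left,
        B_smul_left, h1, B_comm (P.e j), h1]
      module)

theorem Geo.ρ_gen (P : Geo m) (i : ZMod m) (x : E) : P.ρ (gen (cyc m) i) x = P.r i x := by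
  rw [Geo.ρ, lift_gen]

theorem Geo.ρ_mul (P : Geo m) (g h : RACG (cyc m)) (x : E) : P.ρ (g * h) x = P.ρ g (P.ρ h x) := by
  rw [map_mul]; rfl

theorem Geo.ρ_one (P : Geo m) (x : E) : P.ρ 1 x = x := by
  rw [map_one]; rfl

theorem Geo.ρ_B (P : Geo m) (g : RACG (cyc m)) : ∀ x y : E, B (P.ρ g x) (P.ρ g y) = B x y := by
  refine wp_induction (P := fun g => ∀ x y : E, B (P.ρ g x) (P.ρ g y) = B x y) ?_ ?_ g
  · intro x y
    rw [P.ρ_one, P.ρ_one]
  · intro g v ih x y
    rw [P.ρ_mul, P.ρ_mul, ih, P.ρ_gen, P.ρ_gen]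
    exact rf_B _ _ _ _

theorem Geo.r_FC (P : Geo m) (i : ZMod m) {x : E} (h : FC x) : FC (P.r i x) := by
  refine ⟨?_, ?_⟩
  · have := rf_B (P.e i) (P.e1 i) x x
    show B (rf (P.e i) (P.e1 i) x) (rf (P.e i) (P.e1 i) x) ≤ 0
    rw [this]; exact h.1
  · have h1 : B (P.r i x) o = B x (P.r i o) := by
      have h2 := rf_B (P.e i) (P.e1 i) (P.r i x) o
      have h3 : rf (P.e i) (P.e1 i) (P.r i x) = x := P.r_r i x
      rw [h3] at h2
      exact h2.symm
    have h4 : FT (P.r i o) := by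
      refine ⟨?_, ?_⟩
      · have := rf_B (P.e i) (P.e1 i) o o
        show B (rf (P.e i) (P.e1 i) o) (rf (P.e i) (P.e1 i) o) < 0
        rw [this]; exact FT_o.1
      · rw [P.r_apply, B_comm, B_o, P.e3]
        have h5 : (o - (2 * -P.b) • P.e i).2.2 = 1 + 2 * P.b * P.b := by
          simp [o, P.e3]
        rw [h5]
        have := P.hb
        positivity
    have h6 := FC_FT h h4
    rw [← h1, B_o] at h6
    linarith

theorem Geo.ρ_FC (P : Geo m) (g : RACG (cyc m)) : ∀ x, FC x → FC (P.ρ g x) := by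
  refine wp_induction (P := fun g => ∀ x, FC x → FC (P.ρ g x)) ?_ ?_ g
  · intro x hx
    rwa [P.ρ_one]
  · intro g v ih x hx
    rw [P.ρ_mul, P.ρ_gen]
    exact ih _ (P.r_FC v hx)

theorem Geo.ρ_FT (P : Geo m) (g : RACG (cyc m)) {x : E} (h : FT x) : FT (P.ρ g x) :=
  ⟨by rw [P.ρ_B]; exact h.1, (P.ρ_FC g x h.fc).2⟩

theorem Geo.ρ_inv (P : Geo m) (g : RACG (cyc m)) (x y : E) :
    B (P.ρ g⁻¹ x) y = B x (P.ρ g y) := by
  have h := P.ρ_B g (P.ρ g⁻¹ x) y
  rw [← P.ρ_mul, mul_inv_cancel, P.ρ_one] at h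
  exact h.symm

/-! ### words and the sign lemma -/

theorem zmod2 (x : ZMod 2) : x = 0 ∨ x = 1 := by
  revert x; decide

/-- exchange condition -/
theorem exch {V : Type*} (Γ : SimpleGraph V) (l : List V) : ∀ t, N (wp Γ l) t = 1 →
    ∃ l' : List V, l'.length + 1 = l.length ∧ t * wp Γ l = wp Γ l' := by
  classical
  induction l with
  | nil =>
    intro t h
    simp at h
  | cons v l ih =>
    intro t h
    rw [wp_cons, N_mul, N_gen] at h
    by_cases ht : t = gen Γ v
    · refine ⟨l, rfl, ?_⟩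
      rw [ht, wp_cons, ← mul_assoc, gen_sq, one_mul]
    · rw [if_neg ht, zero_add] at h
      obtain ⟨l', h1, h2⟩ := ih _ h
      refine ⟨v :: l', by simp [h1], ?_⟩
      rw [wp_cons, wp_cons, ← h2, gen_inv]
      have h3 : gen Γ v * (gen Γ v * t * gen Γ v * wp Γ l) =
        (gen Γ v * gen Γ v) * t * gen Γ v * wp Γ l := by group
      rw [h3, gen_sq, one_mul, mul_assoc]

theorem N_inv {V : Type*} {Γ : SimpleGraph V} (g t : RACG Γ) : N g⁻¹ t = N g (g * t * g⁻¹) := by
  have h := N_mul g g⁻¹ (g * t * g⁻¹)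
  rw [mul_inv_cancel, N_one] at h
  have h2 : g⁻¹ * (g * t * g⁻¹) * g = t := by group
  rw [h2] at h
  have h3 : ∀ a b : ZMod 2, 0 = a + b → b = a := by decide
  exact h3 _ _ h

/-- the sign lemma -/
theorem Geo.sign (P : Geo m) (n : ℕ) : ∀ (l : List (ZMod m)), l.length ≤ n → ∀ i,
    (N (wp (cyc m) l) (gen (cyc m) i) = 0 → B (P.ρ (wp (cyc m) l) o) (P.e i) < 0) ∧
    (N (wp (cyc m) l) (gen (cyc m) i) = 1 → 0 < B (P.ρ (wp (cyc m) l) o) (P.e i)) := by
  classical
  induction n with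
  | zero =>
    intro l hl i
    have : l = [] := List.length_eq_zero_iff.1 (by omega)
    subst this
    rw [wp_nil, P.ρ_one]
    refine ⟨fun _ => ?_, fun h => by simp at h⟩
    rw [B_comm, B_o, P.e3]
    linarith [P.hb]
  | succ n ih =>
    have one : ∀ l : List (ZMod m), l.length ≤ n + 1 → ∀ i,
        N (wp (cyc m) l) (gen (cyc m) i) = 1 → 0 < B (P.ρ (wp (cyc m) l) o) (P.e i) := by
      intro l hl i h
      obtain ⟨l', h1, h2⟩ := exch (cyc m) l _ h
      have h3 : wp (cyc m) l = gen (cyc m) i * wp (cyc m) l' := by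
        rw [← h2, ← mul_assoc, gen_sq, one_mul]
      have h4 : N (wp (cyc m) l') (gen (cyc m) i) = 0 := by
        rw [h3, N_mul, N_gen, if_pos rfl, gen_inv, gen_sq, one_mul] at h
        have : ∀ a : ZMod 2, 1 + a = 1 → a = 0 := by decide
        exact this _ h
      have h5 := (ih l' (by omega) i).1 h4
      rw [h3, P.ρ_mul, P.ρ_gen]
      have h6 := rf_B (P.e i) (P.e1 i) (P.r i (P.ρ (wp (cyc m) l') o)) (P.e i)
      have h7 : rf (P.e i) (P.e1 i) (P.r i (P.ρ (wp (cyc m) l') o)) = P.ρ (wp (cyc m) l') o :=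
        P.r_r i _
      have h8 : rf (P.e i) (P.e1 i) (P.e i) = - P.e i := P.r_self i
      rw [h7, h8, B_neg] at h6
      linarith
    intro l hl i
    refine ⟨fun h => ?_, one l hl i⟩
    rcases l with _ | ⟨j, l1⟩
    · exact (ih [] (by simp) i).1 h
    rcases zmod2 (N (wp (cyc m) (j :: l1)) (gen (cyc m) j)) with h0 | h1
    · -- not minimal
      have h2 : N (wp (cyc m) l1) (gen (cyc m) j) = 1 := by
        rw [wp_cons, N_mul, N_gen, if_pos rfl, gen_inv, gen_sq, one_mul] at h0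
        have : ∀ a : ZMod 2, 1 + a = 0 → a = 1 := by decide
        exact this _ h0
      obtain ⟨l2, h3, h4⟩ := exch (cyc m) l1 _ h2
      have h5 : wp (cyc m) (j :: l1) = wp (cyc m) l2 := by rw [wp_cons, h4]
      rw [h5] at h ⊢
      simp only [List.length_cons] at hl
      exact (ih l2 (by omega) i).1 h
    · rcases tri j i with rfl | hadj | hfar
      · rw [h] at h1
        exact absurd h1 (by decide)
      · have hne : gen (cyc m) i ≠ gen (cyc m) j := by
          intro he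
          rw [he, h1] at h
          exact absurd h (by decide)
        have hc := gen_comm (cyc m) hadj
        have h2 : N (wp (cyc m) l1) (gen (cyc m) i) = 0 := by
          rw [wp_cons, N_mul, N_gen, if_neg hne, gen_inv, zero_add, hc, mul_assoc, gen_sq,
            mul_one] at h
          exact h
        simp only [List.length_cons] at hl
        have h3 := (ih l1 (by omega) i).1 h2
        rw [wp_cons, P.ρ_mul, P.ρ_gen]
        have h6 := rf_B (P.e j) (P.e1 j) (P.ρ (wp (cyc m) l1) o) (P.e i)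
        have h8 : rf (P.e j) (P.e1 j) (P.e i) = P.e i :=
          P.r_perp j (by rw [B_comm]; exact P.adj hadj)
        rw [h8] at h6
        show B (rf (P.e j) (P.e1 j) _) _ < 0
        rw [h6]
        exact h3
      · have h2 := one (j :: l1) hl j h1
        have h3 := FC_FT (P.ρ_FT (wp (cyc m) (j :: l1)) FT_o).fc (P.ft hfar)
        rw [B_add, B_smul] at h3
        have := P.hκ
        nlinarith

theorem Geo.sign0 (P : Geo m) (h : RACG (cyc m)) (i : ZMod m) (h0 : N h (gen (cyc m) i) = 0) :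
    B (P.ρ h o) (P.e i) < 0 := by
  obtain ⟨l, rfl⟩ := exists_wp h
  exact (P.sign l.length l le_rfl i).1 h0

theorem Geo.sign1 (P : Geo m) (h : RACG (cyc m)) (i : ZMod m) (h0 : N h (gen (cyc m) i) = 1) :
    0 < B (P.ρ h o) (P.e i) := by
  obtain ⟨l, rfl⟩ := exists_wp h
  exact (P.sign l.length l le_rfl i).2 h0

theorem Geo.sign0' (P : Geo m) (h : RACG (cyc m)) (i : ZMod m)
    (h0 : B (P.ρ h o) (P.e i) < 0) : N h (gen (cyc m) i) = 0 := by
  rcases zmod2 (N h (gen (cyc m) i)) with h1 | h1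
  · exact h1
  · linarith [P.sign1 h i h1]

theorem Geo.sign1' (P : Geo m) (h : RACG (cyc m)) (i : ZMod m)
    (h0 : 0 < B (P.ρ h o) (P.e i)) : N h (gen (cyc m) i) = 1 := by
  rcases zmod2 (N h (gen (cyc m) i)) with h1 | h1
  · linarith [P.sign0 h i h1]
  · exact h1

end Pool.Agent.Helper53.RCD
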